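import Pool.Agent.N71.EX.Stm
import Pool.Agent.H38R2.CG.KR
import Pool.Agent.Erdos456.Mertens

/-!
# Project EX, leaf SMO: the ideals of smooth norm
-/

set_option autoImplicit false

namespace Pool.Agent.N727.EX

open Finset Filter Pool.Agent.H38R2.CG Pool.Agent.N71.EX
open scoped Classical

theorem chi2_tri (D : ℤ) (k : ℕ) : chi2 D ^ k = 0 ∨ chi2 D ^ k = 1 ∨ chi2 D ^ k = -1 := by
  unfold chi2
  split_ifs
  · simp
  · rcases neg_one_pow_eq_or ℤ k with h | h <;> simp [h]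
  · rcases k with _ | k
    · simp
    · simp

theorem chi_tri (D : ℕ) (n : ℕ) : chi D n = 0 ∨ chi D n = 1 ∨ chi D n = -1 := by
  unfold chi
  rcases chi2_tri D (padicValNat 2 n) with h | h | h <;>
    rcases jacobiSym.trichotomy (D : ℤ) (n / 2 ^ padicValNat 2 n) with h' | h' | h' <;>
    rw [h, h'] <;> simp

theorem chi_one (D : ℤ) : chi D 1 = 1 := by
  simp [chi]

theorem chi_mul' (D : ℕ) (hD : IsFund D) (m n : ℕ) (hm : 1 ≤ m) (hn : 1 ≤ n) :
    chi D (m * n) = chi D m * chi D n := by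
  obtain ⟨χ, -, hχ⟩ := T_KR D hD
  have h1 := hχ (m * n) (Nat.mul_pos hm hn)
  have h2 := hχ m hm
  have h3 := hχ n hn
  rw [Nat.cast_mul, map_mul, h2, h3] at h1
  exact_mod_cast h1.symm

theorem chi_pow' (D : ℕ) (hD : IsFund D) (p : ℕ) (hp : 1 ≤ p) (k : ℕ) :
    chi D (p ^ k) = chi D p ^ k := by
  induction k with
  | zero => simp [chi_one]
  | succ k ih =>
    rw [pow_succ, chi_mul' D hD _ _ (Nat.one_le_pow _ _ hp) hp, ih, pow_succ]

/-- The character as an arithmetic function. -/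
noncomputable def cf (D : ℕ) : ArithmeticFunction ℝ :=
  ⟨fun n => if n = 0 then 0 else (chi D n : ℝ), by simp⟩

theorem cf_mult (D : ℕ) (hD : IsFund D) : (cf D).IsMultiplicative := by
  refine ⟨?_, ?_⟩
  · show (if (1 : ℕ) = 0 then (0 : ℝ) else (chi D 1 : ℝ)) = 1
    rw [if_neg one_ne_zero, chi_one]
    simp
  · intro m n hmn
    show (if m * n = 0 then (0 : ℝ) else (chi D (m * n : ℕ) : ℝ)) =
      (if m = 0 then (0 : ℝ) else (chi D m : ℝ)) * (if n = 0 then (0 : ℝ) else (chi D n : ℝ))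
    by_cases hm : m = 0
    · simp [hm]
    by_cases hn : n = 0
    · simp [hn]
    rw [if_neg (Nat.mul_ne_zero hm hn), if_neg hm, if_neg hn,
      chi_mul' D hD m n (Nat.one_le_iff_ne_zero.2 hm) (Nat.one_le_iff_ne_zero.2 hn)]
    push_cast
    ring

theorem rr_eq (D n : ℕ) : rr D n = ((ArithmeticFunction.zeta : ArithmeticFunction ℝ) * cf D) n := by
  rw [ArithmeticFunction.coe_zeta_mul_apply]
  unfold rr
  refine Finset.sum_congr rfl fun m hm => ?_
  have hm0 : m ≠ 0 := (Nat.pos_of_mem_divisors hm).ne'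
  show (chi D m : ℝ) = if m = 0 then (0 : ℝ) else (chi D m : ℝ)
  rw [if_neg hm0]

theorem rr_mult (D : ℕ) (hD : IsFund D) :
    ((ArithmeticFunction.zeta : ArithmeticFunction ℝ) * cf D).IsMultiplicative :=
  (ArithmeticFunction.isMultiplicative_zeta.natCast).mul (cf_mult D hD)

theorem rr_one (D : ℕ) (hD : IsFund D) : rr D 1 = 1 := by
  rw [rr_eq]
  exact (rr_mult D hD).1

theorem rr_mul (D : ℕ) (hD : IsFund D) {m n : ℕ} (h : Nat.Coprime m n) :
    rr D (m * n) = rr D m * rr D n := by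
  simp only [rr_eq]
  exact (rr_mult D hD).2 h

theorem rr_pp (D : ℕ) (hD : IsFund D) (p : ℕ) (hp : p.Prime) (k : ℕ) :
    rr D (p ^ k) = ∑ j ∈ range (k + 1), (chi D p : ℝ) ^ j := by
  unfold rr
  rw [Nat.sum_divisors_prime_pow hp]
  refine Finset.sum_congr rfl fun j _ => ?_
  rw [chi_pow' D hD p hp.one_lt.le]
  push_cast
  rfl

theorem geo_nonneg (D p k : ℕ) : 0 ≤ ∑ j ∈ range (k + 1), (chi D p : ℝ) ^ j := by
  rcases chi_tri D p with h | h | h
  · rw [h]
    exact Finset.sum_nonneg fun j _ => by positivity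
  · rw [h]
    exact Finset.sum_nonneg fun j _ => by positivity
  · rw [h]
    have : ((-1 : ℤ) : ℝ) = -1 := by norm_num
    rw [this, neg_one_geom_sum]
    split_ifs <;> norm_num

theorem rr_nonneg (D : ℕ) (hD : IsFund D) (n : ℕ) (hn : n ≠ 0) : 0 ≤ rr D n := by
  rw [rr_eq, (rr_mult D hD).multiplicative_factorization _ hn]
  refine Finset.prod_nonneg fun p hp => ?_
  have hpp : p.Prime := Nat.prime_of_mem_primeFactors (by simpa using hp)
  show 0 ≤ ((ArithmeticFunction.zeta : ArithmeticFunction ℝ) * cf D) (p ^ (n.factorization p))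
  rw [← rr_eq, rr_pp D hD p hpp]
  exact geo_nonneg D p _

/-- The summand. -/
noncomputable def ff (D : ℕ) (a : ℝ) (n : ℕ) : ℝ := rr D n * (n : ℝ) ^ (-a)

theorem ff_one (D : ℕ) (hD : IsFund D) (a : ℝ) : ff D a 1 = 1 := by
  simp [ff, rr_one D hD]

theorem ff_mul (D : ℕ) (hD : IsFund D) (a : ℝ) {m n : ℕ} (h : Nat.Coprime m n) :
    ff D a (m * n) = ff D a m * ff D a n := by
  unfold ff
  rw [rr_mul D hD h, Nat.cast_mul, Real.mul_rpow (Nat.cast_nonneg _) (Nat.cast_nonneg _)]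
  ring

theorem ff_pp (D : ℕ) (hD : IsFund D) (a : ℝ) (p : ℕ) (hp : p.Prime) (k : ℕ) :
    ff D a (p ^ k) = ∑ j ∈ range (k + 1), ((chi D p : ℝ) * (p : ℝ) ^ (-a)) ^ j *
      ((p : ℝ) ^ (-a)) ^ (k - j) := by
  unfold ff
  rw [rr_pp D hD p hp, Finset.sum_mul]
  refine Finset.sum_congr rfl fun j hj => ?_
  have hj' : j ≤ k := Nat.lt_succ_iff.1 (Finset.mem_range.1 hj)
  have h1 : ((p ^ k : ℕ) : ℝ) ^ (-a) = ((p : ℝ) ^ (-a)) ^ k := by
    rw [Nat.cast_pow, ← Real.rpow_natCast, ← Real.rpow_natCast, ← Real.rpow_mul (Nat.cast_nonneg _),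
      ← Real.rpow_mul (Nat.cast_nonneg _), mul_comm]
  rw [h1, mul_pow, mul_assoc, ← pow_add, Nat.add_sub_cancel' hj']

theorem abs_chi (D p : ℕ) : |(chi D p : ℝ)| ≤ 1 := by
  rcases chi_tri D p with h | h | h <;> rw [h] <;> norm_num

theorem x_lt (a : ℝ) (ha : 0 < a) (p : ℕ) (hp : p.Prime) :
    0 < (p : ℝ) ^ (-a) ∧ (p : ℝ) ^ (-a) < 1 := by
  have hp1 : (1 : ℝ) < p := by exact_mod_cast hp.one_lt
  refine ⟨Real.rpow_pos_of_pos (by linarith) _, ?_⟩
  exact Real.rpow_lt_one_of_one_lt_of_neg hp1 (by linarith)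

theorem ff_sum (D : ℕ) (hD : IsFund D) (a : ℝ) (ha : 0 < a) (p : ℕ) (hp : p.Prime) :
    Summable (fun n : ℕ => ‖ff D a (p ^ n)‖) ∧
      ∑' n : ℕ, ff D a (p ^ n) = (1 - (chi D p : ℝ) * (p : ℝ) ^ (-a))⁻¹ *
        (1 - (p : ℝ) ^ (-a))⁻¹ := by
  obtain ⟨hx0, hx1⟩ := x_lt a ha p hp
  set x : ℝ := (p : ℝ) ^ (-a) with hx
  have hn1 : ‖x‖ < 1 := by
    rw [Real.norm_of_nonneg hx0.le]
    exact hx1
  have hn2 : ‖(chi D p : ℝ) * x‖ < 1 := by
    rw [norm_mul, Real.norm_eq_abs]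
    calc |(chi D p : ℝ)| * ‖x‖ ≤ 1 * ‖x‖ := by gcongr; exact abs_chi D p
      _ < 1 := by rw [one_mul]; exact hn1
  have hs1 : Summable (fun n : ℕ => ‖x ^ n‖) := by
    simpa [norm_pow] using summable_geometric_of_lt_one (norm_nonneg _) hn1
  have hs2 : Summable (fun n : ℕ => ‖((chi D p : ℝ) * x) ^ n‖) := by
    simp only [norm_pow]
    exact summable_geometric_of_lt_one (norm_nonneg _) hn2
  have he : ∀ n, ff D a (p ^ n) = ∑ k ∈ range (n + 1), ((chi D p : ℝ) * x) ^ k * x ^ (n - k) :=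
    fun n => ff_pp D hD a p hp n
  refine ⟨?_, ?_⟩
  · simp only [he]
    exact summable_norm_sum_mul_range_of_summable_norm hs2 hs1
  · simp only [he]
    rw [← tsum_mul_tsum_eq_tsum_sum_range_of_summable_norm hs2 hs1,
      tsum_geometric_of_norm_lt_one hn2, tsum_geometric_of_norm_lt_one hn1]

/-- The Euler product. -/
noncomputable def FF (D z : ℕ) (a : ℝ) : ℝ := ∏ p ∈ (Finset.Icc 1 z).filter Nat.Prime,
  ((1 - (chi D p : ℝ) * (p : ℝ) ^ (-a))⁻¹ * (1 - (p : ℝ) ^ (-a))⁻¹)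

theorem hasSum_FF (D : ℕ) (hD : IsFund D) (z : ℕ) (a : ℝ) (ha : 0 < a) :
    HasSum (Set.indicator (Nat.factoredNumbers (Finset.Icc 1 z)) (ff D a)) (FF D z a) := by
  have h := (EulerProduct.summable_and_hasSum_factoredNumbers_prod_filter_prime_tsum
    (f := ff D a) (ff_one D hD a) (fun {m n} h => ff_mul D hD a h)
    (fun {p} hp => (ff_sum D hD a ha p hp).1) (Finset.Icc 1 z)).2
  have h2 : ∏ p ∈ (Finset.Icc 1 z).filter Nat.Prime, ∑' n : ℕ, ff D a (p ^ n) = FF D z a := by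
    unfold FF
    refine Finset.prod_congr rfl fun p hp => ?_
    exact (ff_sum D hD a ha p (Finset.mem_filter.1 hp).2).2
  rw [h2] at h
  exact hasSum_subtype_iff_indicator.1 h

theorem mem_fac {z n : ℕ} : n ∈ Nat.factoredNumbers (Finset.Icc 1 z) ↔ n ≠ 0 ∧ Smooth z n := by
  constructor
  · intro h
    refine ⟨h.1, fun p hp hpn => ?_⟩
    have := Nat.mem_factoredNumbers'.1 h p hp hpn
    exact (Finset.mem_Icc.1 this).2
  · rintro ⟨h0, h⟩
    exact Nat.mem_factoredNumbers'.2 fun p hp hpn => Finset.mem_Icc.2 ⟨hp.one_lt.le, h p hp hpn⟩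

/-- Rankin's trick. -/
theorem rankin (D : ℕ) (hD : IsFund D) (z S : ℕ) (hS : 1 ≤ S) (s : ℝ) (hs0 : 0 < s) (hs1 : s < 1) :
    FF D z 1 - (S : ℝ) ^ (-s) * FF D z (1 - s) ≤
      ∑ n ∈ (Finset.Icc 1 S).filter (Smooth z), rr D n / n := by
  have h1 := hasSum_FF D hD z 1 one_pos
  have h2 := (hasSum_FF D hD z (1 - s) (by linarith)).mul_left ((S : ℝ) ^ (-s))
  have h3 := h1.sub h2
  set F := (Finset.Icc 1 S).filter (Smooth z) with hF
  set k : ℕ → ℝ := fun n => if n ∈ F then rr D n / n else 0 with hk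
  have h4 : HasSum k (∑ n ∈ F, k n) := hasSum_sum_of_ne_finset_zero fun n hn => by
    simp [hk, hn]
  have h5 : ∑ n ∈ F, k n = ∑ n ∈ F, rr D n / n := Finset.sum_congr rfl fun n hn => by
    simp [hk, hn]
  rw [← h5]
  refine hasSum_le (fun n => ?_) h3 h4
  have hSr : (1 : ℝ) ≤ S := by exact_mod_cast hS
  by_cases hn : n ∈ Nat.factoredNumbers (Finset.Icc 1 z)
  · rw [Set.indicator_of_mem hn, Set.indicator_of_mem hn]
    obtain ⟨hn0, hsm⟩ := mem_fac.1 hn
    have hnr : (0 : ℝ) < n := by exact_mod_cast Nat.pos_of_ne_zero hn0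
    have hr := rr_nonneg D hD n hn0
    by_cases hnS : n ≤ S
    · have hnF : n ∈ F := by
        rw [hF]
        exact Finset.mem_filter.2 ⟨Finset.mem_Icc.2 ⟨Nat.pos_of_ne_zero hn0, hnS⟩, hsm⟩
      have hkn : k n = rr D n / n := by simp [hk, hnF]
      rw [hkn]
      unfold ff
      rw [Real.rpow_neg_one, div_eq_mul_inv]
      have : 0 ≤ (S : ℝ) ^ (-s) * (rr D n * (n : ℝ) ^ (-(1 - s))) := by positivity
      linarith
    · have hnF : n ∉ F := by
        intro h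
        exact hnS (Finset.mem_Icc.1 (Finset.mem_filter.1 h).1).2
      have hkn : k n = 0 := by simp [hk, hnF]
      rw [hkn]
      unfold ff
      have hSn : (S : ℝ) ≤ n := by exact_mod_cast (not_le.1 hnS).le
      have e1 : (n : ℝ) ^ (-1 : ℝ) = (n : ℝ) ^ (-s) * (n : ℝ) ^ (-(1 - s)) := by
        rw [← Real.rpow_add hnr]
        congr 1
        ring
      have e2 : (n : ℝ) ^ (-s) ≤ (S : ℝ) ^ (-s) :=
        Real.rpow_le_rpow_of_nonpos (by linarith) hSn (by linarith)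
      rw [e1]
      have e3 : 0 ≤ rr D n * (n : ℝ) ^ (-(1 - s)) := by positivity
      nlinarith [mul_le_mul_of_nonneg_right e2 e3]
  · rw [Set.indicator_of_notMem hn, Set.indicator_of_notMem hn]
    have hnF : n ∉ F := by
      intro h
      obtain ⟨ha, hb⟩ := Finset.mem_filter.1 h
      exact hn (mem_fac.2 ⟨by have := (Finset.mem_Icc.1 ha).1; omega, hb⟩)
    have hkn : k n = 0 := by simp [hk, hnF]
    rw [hkn]
    simp

/-- One Euler factor. -/
theorem factor_le (c x y : ℝ) (hc : c = 0 ∨ c = 1 ∨ c = -1) (hx : 0 < x) (hxy : x ≤ y)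
    (hy : y ≤ 2 / 3) :
    (1 - c * y)⁻¹ * (1 - y)⁻¹ ≤ Real.exp (6 * (y - x)) * ((1 - c * x)⁻¹ * (1 - x)⁻¹) := by
  have hE : 1 + 3 * (y - x) ≤ Real.exp (3 * (y - x)) := by
    have := Real.add_one_le_exp (3 * (y - x))
    linarith
  have hE1 : 1 ≤ Real.exp (3 * (y - x)) := by nlinarith
  have key : 1 - x ≤ Real.exp (3 * (y - x)) * (1 - y) := by
    have h1 : (1 + 3 * (y - x)) * (1 - y) ≤ Real.exp (3 * (y - x)) * (1 - y) :=
      mul_le_mul_of_nonneg_right hE (by linarith)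
    nlinarith [mul_nonneg (sub_nonneg.2 hxy) (sub_nonneg.2 hy)]
  have hposy : 0 < 1 - y := by linarith
  have hposx : 0 < 1 - x := by linarith
  have hcy : 0 < 1 - c * y := by
    rcases hc with h | h | h <;> rw [h] <;> linarith
  have hcx : 0 < 1 - c * x := by
    rcases hc with h | h | h <;> rw [h] <;> linarith
  have key2 : 1 - c * x ≤ Real.exp (3 * (y - x)) * (1 - c * y) := by
    rcases hc with h | h | h <;> rw [h]
    · simpa using hxy
    · simpa using key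
    · have : 1 + x ≤ Real.exp (3 * (y - x)) * (1 + y) := by nlinarith
      simpa using this
  have i1 : (1 - y)⁻¹ ≤ Real.exp (3 * (y - x)) * (1 - x)⁻¹ := by
    rw [← div_eq_mul_inv, le_div_iff₀ hposx, inv_mul_le_iff₀ hposy]
    linarith
  have i2 : (1 - c * y)⁻¹ ≤ Real.exp (3 * (y - x)) * (1 - c * x)⁻¹ := by
    rw [← div_eq_mul_inv, le_div_iff₀ hcx, inv_mul_le_iff₀ hcy]
    linarith
  have e : Real.exp (6 * (y - x)) = Real.exp (3 * (y - x)) * Real.exp (3 * (y - x)) := by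
    rw [← Real.exp_add]
    congr 1
    ring
  rw [e]
  calc (1 - c * y)⁻¹ * (1 - y)⁻¹ ≤ (Real.exp (3 * (y - x)) * (1 - c * x)⁻¹) *
        (Real.exp (3 * (y - x)) * (1 - x)⁻¹) := by gcongr
    _ = _ := by ring

theorem chi_tri_real (D p : ℕ) : (chi D p : ℝ) = 0 ∨ (chi D p : ℝ) = 1 ∨ (chi D p : ℝ) = -1 := by
  rcases chi_tri D p with h | h | h <;> rw [h] <;> norm_num

theorem FF_le (D z : ℕ) (hz : 2 ≤ z) (s : ℝ) (hs : s = 1 / (4 * Real.log z)) :
    FF D z (1 - s) ≤ Real.exp (∑ p ∈ (Finset.Icc 1 z).filter Nat.Prime,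
      8 * s * (Real.log p / p)) * FF D z 1 := by
  have hz2 : (2 : ℝ) ≤ z := by exact_mod_cast hz
  have hlz : 0 < Real.log z := Real.log_pos (by linarith)
  have hs0 : 0 < s := by rw [hs]; positivity
  have hsl : s * Real.log z = 1 / 4 := by
    rw [hs]
    field_simp
  unfold FF
  rw [Real.exp_sum, ← Finset.prod_mul_distrib]
  refine Finset.prod_le_prod (fun p hp => ?_) (fun p hp => ?_)
  · obtain ⟨hp1, hpp⟩ := Finset.mem_filter.1 hp
    have h1 : s < 1 := by
      have : Real.log 2 ≤ Real.log z := Real.log_le_log (by norm_num) hz2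
      have h2 := Real.log_two_gt_d9
      nlinarith
    obtain ⟨hx0, hx1⟩ := x_lt (1 - s) (by linarith) p hpp
    have h3 : 0 < 1 - (chi D p : ℝ) * (p : ℝ) ^ (-(1 - s)) := by
      rcases chi_tri_real D p with h | h | h <;> rw [h] <;> linarith
    have h4 : 0 < 1 - (p : ℝ) ^ (-(1 - s)) := by linarith
    positivity
  · obtain ⟨hp1, hpp⟩ := Finset.mem_filter.1 hp
    have hpz : (p : ℝ) ≤ z := by exact_mod_cast (Finset.mem_Icc.1 hp1).2
    have hp2 : (2 : ℝ) ≤ p := by exact_mod_cast hpp.two_le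
    have hlp : 0 < Real.log p := Real.log_pos (by linarith)
    have hlpz : Real.log p ≤ Real.log z := Real.log_le_log (by linarith) hpz
    set t : ℝ := s * Real.log p with ht
    have ht0 : 0 < t := by positivity
    have ht1 : t ≤ 1 / 4 := by
      rw [← hsl]
      exact mul_le_mul_of_nonneg_left hlpz hs0.le
    have hx : (p : ℝ) ^ (-(1 : ℝ)) = 1 / p := by
      rw [Real.rpow_neg_one, one_div]
    have hy : (p : ℝ) ^ (-(1 - s)) = (1 / p) * Real.exp t := by
      rw [← hx, ht, Real.rpow_def_of_pos (by linarith), Real.rpow_def_of_pos (by linarith),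
        ← Real.exp_add]
      congr 1
      ring
    have he : Real.exp t * (1 - t) ≤ 1 := by
      have h1 : 1 - t ≤ Real.exp (-t) := by
        have := Real.add_one_le_exp (-t)
        linarith
      calc Real.exp t * (1 - t) ≤ Real.exp t * Real.exp (-t) := by gcongr
        _ = 1 := by rw [← Real.exp_add]; simp
    have hE0 := Real.exp_pos t
    have he1 : Real.exp t ≤ 4 / 3 := by nlinarith
    have he2 : Real.exp t - 1 ≤ 4 / 3 * t := by nlinarith
    have he3 : 1 ≤ Real.exp t := Real.one_le_exp ht0.le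
    have hp0 : (0 : ℝ) < 1 / p := by positivity
    have hp12 : (1 : ℝ) / p ≤ 1 / 2 := by
      apply one_div_le_one_div_of_le <;> linarith
    have h := factor_le (chi D p : ℝ) ((p : ℝ) ^ (-(1 : ℝ))) ((p : ℝ) ^ (-(1 - s)))
      (chi_tri_real D p) (by rw [hx]; exact hp0) (by rw [hx, hy]; nlinarith)
      (by rw [hy]; nlinarith)
    refine h.trans ?_
    have hnn : 0 ≤ (1 - (chi D p : ℝ) * (p : ℝ) ^ (-(1 : ℝ)))⁻¹ * (1 - (p : ℝ) ^ (-(1 : ℝ)))⁻¹ := by
      obtain ⟨hx0, hx1⟩ := x_lt 1 one_pos p hpp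
      have h3 : 0 < 1 - (chi D p : ℝ) * (p : ℝ) ^ (-(1 : ℝ)) := by
        rcases chi_tri_real D p with h | h | h <;> rw [h] <;> linarith
      have h4 : 0 < 1 - (p : ℝ) ^ (-(1 : ℝ)) := by linarith
      positivity
    refine mul_le_mul_of_nonneg_right ?_ hnn
    apply Real.exp_le_exp.2
    rw [hx, hy]
    have : 1 / (p : ℝ) * Real.exp t - 1 / p = (1 / p) * (Real.exp t - 1) := by ring
    rw [this]
    have h8 : 8 * s * (Real.log p / p) = 6 * ((1 / p) * (4 / 3 * t)) := by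
      rw [ht]
      ring
    rw [h8]
    gcongr

theorem VV_mul (D z : ℕ) : VV D z * FF D z 1 = 1 := by
  unfold VV FF
  rw [← Finset.prod_mul_distrib]
  refine Finset.prod_eq_one fun p hp => ?_
  obtain ⟨hp1, hpp⟩ := Finset.mem_filter.1 hp
  obtain ⟨hx0, hx1⟩ := x_lt 1 one_pos p hpp
  have h3 : 0 < 1 - (chi D p : ℝ) * (p : ℝ) ^ (-(1 : ℝ)) := by
    rcases chi_tri_real D p with h | h | h <;> rw [h] <;> linarith
  have h4 : 0 < 1 - (p : ℝ) ^ (-(1 : ℝ)) := by linarith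
  have e1 : 1 - 1 / (p : ℝ) = 1 - (p : ℝ) ^ (-(1 : ℝ)) := by rw [Real.rpow_neg_one, one_div]
  have e2 : 1 - (chi D p : ℝ) / p = 1 - (chi D p : ℝ) * (p : ℝ) ^ (-(1 : ℝ)) := by
    rw [Real.rpow_neg_one, div_eq_mul_inv]
  rw [e1, e2]
  have h5 := mul_inv_cancel₀ h3.ne'
  have h6 := mul_inv_cancel₀ h4.ne'
  calc _ = ((1 - (chi D p : ℝ) * (p : ℝ) ^ (-(1 : ℝ))) *
        (1 - (chi D p : ℝ) * (p : ℝ) ^ (-(1 : ℝ)))⁻¹) *
        ((1 - (p : ℝ) ^ (-(1 : ℝ))) * (1 - (p : ℝ) ^ (-(1 : ℝ)))⁻¹) := by ring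
    _ = 1 := by rw [h5, h6, mul_one]

theorem FF_pos (D z : ℕ) : 0 < FF D z 1 := by
  unfold FF
  refine Finset.prod_pos fun p hp => ?_
  obtain ⟨hp1, hpp⟩ := Finset.mem_filter.1 hp
  obtain ⟨hx0, hx1⟩ := x_lt 1 one_pos p hpp
  have h3 : 0 < 1 - (chi D p : ℝ) * (p : ℝ) ^ (-(1 : ℝ)) := by
    rcases chi_tri_real D p with h | h | h <;> rw [h] <;> linarith
  have h4 : 0 < 1 - (p : ℝ) ^ (-(1 : ℝ)) := by linarith
  positivity

/-- **SMO.** -/
theorem t_SMO : E_SMO := by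
  obtain ⟨C, hC⟩ := Pool.Agent.Erdos456.Mert.mertens_log
  have hC0 : 0 ≤ C := (abs_nonneg _).trans (hC 1 le_rfl)
  refine ⟨⌈4 * (3 + 4 * C)⌉₊, ?_⟩
  intro D hD z S hz hS
  set A : ℕ := ⌈4 * (3 + 4 * C)⌉₊ with hA
  have hA' : 4 * (3 + 4 * C) ≤ (A : ℝ) := Nat.le_ceil _
  have hz2 : (2 : ℝ) ≤ z := by exact_mod_cast hz
  have hlz : 0 < Real.log z := Real.log_pos (by linarith)
  have hl2 : Real.log 2 ≤ Real.log z := Real.log_le_log (by norm_num) hz2
  have hl2' := Real.log_two_gt_d9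
  set s : ℝ := 1 / (4 * Real.log z) with hs
  have hs0 : 0 < s := by rw [hs]; positivity
  have hsl : s * Real.log z = 1 / 4 := by
    rw [hs]
    field_simp
  have hs1 : s ≤ 1 / 2 := by nlinarith
  have hS1 : 1 ≤ S := (Nat.one_le_pow _ _ (by omega)).trans hS
  have hR := rankin D hD z S hS1 s hs0 (by linarith)
  have hF := FF_le D z hz s hs
  -- the sum over the primes
  have hM : ∑ p ∈ (Finset.Icc 1 z).filter Nat.Prime, 8 * s * (Real.log p / p) ≤ 2 + 4 * C := by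
    rw [← Finset.mul_sum]
    have h1 := (abs_le.1 (hC z (by omega))).2
    have h2 : ∑ p ∈ (Finset.Icc 1 z).filter Nat.Prime, Real.log p / p ≤ Real.log z + C := by
      linarith
    calc 8 * s * ∑ p ∈ (Finset.Icc 1 z).filter Nat.Prime, Real.log p / p
        ≤ 8 * s * (Real.log z + C) := by gcongr
      _ = 8 * (s * Real.log z) + 8 * s * C := by ring
      _ ≤ 2 + 4 * C := by rw [hsl]; nlinarith
  have hSs : (S : ℝ) ^ (-s) ≤ Real.exp (-(A / 4)) := by
    have h1 : ((z : ℝ) ^ A) ≤ S := by exact_mod_cast hS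
    have h2 : (0 : ℝ) < (z : ℝ) ^ A := by positivity
    calc (S : ℝ) ^ (-s) ≤ ((z : ℝ) ^ A) ^ (-s) :=
          Real.rpow_le_rpow_of_nonpos h2 h1 (by linarith)
      _ = Real.exp (-(A / 4)) := by
          rw [Real.rpow_def_of_pos h2, Real.log_pow]
          congr 1
          have : (A : ℝ) * Real.log z * -s = -(A * (s * Real.log z)) := by ring
          rw [this, hsl]
          ring
  have hFp := FF_pos D z
  have hbound : (S : ℝ) ^ (-s) * FF D z (1 - s) ≤ 1 / 2 * FF D z 1 := by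
    calc (S : ℝ) ^ (-s) * FF D z (1 - s)
        ≤ Real.exp (-(A / 4)) * (Real.exp (2 + 4 * C) * FF D z 1) := by
          have h0 : FF D z (1 - s) ≤ Real.exp (2 + 4 * C) * FF D z 1 := by
            refine hF.trans ?_
            gcongr
          have h3 : (0 : ℝ) ≤ (S : ℝ) ^ (-s) := by positivity
          calc (S : ℝ) ^ (-s) * FF D z (1 - s)
              ≤ (S : ℝ) ^ (-s) * (Real.exp (2 + 4 * C) * FF D z 1) := by gcongr
            _ ≤ _ := by gcongr
      _ = Real.exp (-(A / 4) + (2 + 4 * C)) * FF D z 1 := by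
          rw [Real.exp_add (-((A : ℝ) / 4))]
          ring
      _ ≤ 1 / 2 * FF D z 1 := by
          have h4 : Real.exp (-(A / 4) + (2 + 4 * C)) ≤ Real.exp (-1) := by
            apply Real.exp_le_exp.2
            linarith
          have h5 : Real.exp (-1) ≤ 1 / 2 := by
            have h6 := Real.exp_one_gt_d9
            rw [Real.exp_neg, one_div]
            apply inv_anti₀ (by norm_num)
            linarith
          gcongr
          linarith
  have hV := VV_mul D z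
  have hVp : 0 < VV D z := by
    by_contra h
    have h' := not_lt.1 h
    nlinarith
  calc (1 : ℝ) / 2 = VV D z * (1 / 2 * FF D z 1) := by
        have : VV D z * (1 / 2 * FF D z 1) = 1 / 2 * (VV D z * FF D z 1) := by ring
        rw [this, hV, mul_one]
    _ ≤ VV D z * ∑ n ∈ (Finset.Icc 1 S).filter (Smooth z), rr D n / n := by
        gcongr
        linarith

end Pool.Agent.N727.EX
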